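import Mathlib
import Pool.Agent.helper12.FI3.GG3
import Pool.Agent.helper43.FI3.LFE3

/-!
# Project fi3 (MP_baa4d7_al): extension of linear characters
-/

set_option autoImplicit false

namespace Pool.Agent.FI3

open Pool.Agent.helper58.DC Pool.Agent.DI Pool.Agent.GR Pool.Agent.OB Pool.Agent.DR Pool.Agent.FI

theorem LEX_ext {D : Type} [CommGroup D] [Finite D] (Z : Subgroup D) (l : Z →* ℂˣ) :
    ∃ l' : D →* ℂˣ, ∀ z : Z, l' z = l z := by
  obtain ⟨l', hl'⟩ := MonoidHom.domRestrict_surjective ℂ Z l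
  exact ⟨l', fun z => by rw [← hl']; rfl⟩

theorem LEX (hLFE : LFE3_stmt) : LEXh := by
  intro p D _ _ hp hcom hpg I hI Z hZ l
  let _ : CommGroup D := { (inferInstance : Group D) with mul_comm := hcom }
  have : Fintype D := Fintype.ofFinite D
  obtain ⟨l', hl'⟩ := LEX_ext Z l
  obtain ⟨m, hm, hmy⟩ := hLFE p D Z I l' hp hpg hI hZ
  refine ⟨m, hm, fun z => ?_⟩
  rw [← hl' z]
  have h1 := hmy z z.2
  exact Units.ext h1

end Pool.Agent.FI3
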