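import Mathlib
import Pool.Agent.helper7.FI23.LEX
import Pool.Agent.helper12.FI.All
import Pool.Agent.helper12.FI.ExtE
import Pool.Agent.helper12.FI3.SG3
import Pool.Agent.helper12.FI3.Fin3
import Pool.Agent.helper59.FI3.AllP3
import Pool.Agent.helper1.FI3.AllH3
import Pool.Agent.helper40.FI3.AllLA3
import Pool.Agent.helper58.FI3F.AllF
import Pool.Agent.helper70.FI3.AllN3
import Pool.Agent.helper22.FI3.AllCQ

/-!
# Project fi3 (MP_baa4d7_al): the theorem for abelian semi-free inertial action without hypotheses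
-/

set_option autoImplicit false

namespace Pool.Agent.FI3.All3

open Pool.Agent.helper58.DC Pool.Agent.DI Pool.Agent.GR Pool.Agent.OB Pool.Agent.DR Pool.Agent.FI Pool.Agent.FI3

theorem wLEX : LEXh := LEX aLA_LFE3
theorem wGG3 : GG3_stmt :=
  GG3 AllP3.pFRA3 Pool.Agent.FI3F.AllF.oFFF3 AllCQ.jCQ AllN3.nN3C AllH3.hQLA3 aLA_LAF3 Pool.Agent.FI.aLA_LCO wLEX
theorem wSG3 : SG3_stmt := SG3 wGG3

theorem wFFD : FFD_stmt := Pool.Agent.FI3F.AllF.cFFD3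

theorem fi3_main (p : ℕ) (hpr : p.Prime) (hodd : p ≠ 2) (M : Ideal (integralClosure ℤ ℂ)) (hM : M.IsMaximal)
    (hp : (p : integralClosure ℤ ℂ) ∈ M) (G : Type) [Group G] [Finite G]
    (hG : IsOp p (⊤ : Subgroup G) ⊥) (χ : G → ℂ) (hχ : χ ∈ Irr G) (D : Subgroup G) (θ : G → ℂ)
    (h : Pool.Agent.FIW.SemiFree p M χ D θ) (d : ℤ) : altSum (trivE G) p M χ d ⊤ = 0 :=
  Fin3_main AllP3.pLO3 AllP3.pLG3 AllA.dTPR wSG3 wFFD p hpr hodd M hM hp G hG χ hχ D θ h d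

theorem fi3_cnt (p : ℕ) (hpr : p.Prime) (hodd : p ≠ 2) (M : Ideal (integralClosure ℤ ℂ)) (hM : M.IsMaximal)
    (hp : (p : integralClosure ℤ ℂ) ∈ M) (G : Type) [Group G] [Finite G]
    (χ : G → ℂ) (hχ : χ ∈ Irr G) (D : Subgroup G) (θ : G → ℂ)
    (h : Pool.Agent.FIW.SemiFree p M χ D θ) (i a : ℕ)
    (hi : (Pool.Agent.FIW.inertial M D θ).ncard = i * Nat.card (Subgroup.centralizer (D : Set G)))
    (ha : Nat.card D = p ^ a) (d : ℤ) :
    i * Nat.card {ψ : G → ℂ // ψ ∈ Irr G ∧ Defect p ⊤ ψ d ∧ Induces M ψ χ} =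
      if d = a then (Pool.Agent.FIW.fixed M D θ).ncard * i ^ 2 +
        (p ^ a - (Pool.Agent.FIW.fixed M D θ).ncard) else 0 :=
  Fin3_cnt AllP3.pLO3 AllP3.pLG3 AllA.dTPR wSG3 p hpr hodd M hM hp G χ hχ D θ h i a hi ha d

end Pool.Agent.FI3.All3
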