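import Mathlib
import Pool.Agent.helper12.FI3.DefsW

/-!
# Blocks with abelian defect group and semi-free inertial action: definitions for the statement

`Irr`, `IrrOn`, `omega`, `Induces`, `funMap` are those of `helper58/DC/Defs.lean`, `DefectGroup` is that of
`helper12/TZ/DefsV.lean`, `inertial` is that of `helper12/FI/DefsF.lean`, `fixed` that of `helper12/FI3/DefsW.lean`. `B` is the block of
the irreducible character `χ` of `G`, `D` an abelian defect group, `b` the block of the character `θ` of `C_G(D)`, `b^G = B`,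
`T = N_G(D, b)` (`inertial`), `I = T / C_G(D)`.
-/

set_option autoImplicit false

namespace Pool.Agent.FIW

open Pool.Agent.helper58.DC

variable {G : Type} [Group G]

/-- The inertial quotient `I` is abelian. -/
def AbelianI (M : Ideal (integralClosure ℤ ℂ)) (D : Subgroup G) (θ : G → ℂ) : Prop :=
  ∀ s ∈ inertial M D θ, ∀ t ∈ inertial M D θ, s * t * s⁻¹ * t⁻¹ ∈ Subgroup.centralizer (D : Set G)

/-- The inertial quotient `I` acts semi-freely on `D`: an element of `N_G(D, b)` outside `C_G(D)` commutes only with the elements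
of `C_D(I)`. -/
def SemiFreeI (M : Ideal (integralClosure ℤ ℂ)) (D : Subgroup G) (θ : G → ℂ) : Prop :=
  ∀ t ∈ inertial M D θ, ∀ u ∈ D, t * u = u * t → u ∈ fixed M D θ ∨ t ∈ Subgroup.centralizer (D : Set G)

/-- The inertial quotient `I` acts freely on `D \ {1}`. -/
def FreeI (M : Ideal (integralClosure ℤ ℂ)) (D : Subgroup G) (θ : G → ℂ) : Prop :=
  ∀ t ∈ inertial M D θ, ∀ u ∈ D, u ≠ 1 → t * u = u * t → t ∈ Subgroup.centralizer (D : Set G)

/-- `|I|` is smaller than the order of some commutator `w⁻¹ (t w t⁻¹)`, `w ∈ D`, `t ∈ N_G(D, b)`. -/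
def SmallComm (M : Ideal (integralClosure ℤ ℂ)) (D : Subgroup G) (θ : G → ℂ) : Prop :=
  ∃ w ∈ D, ∃ t ∈ inertial M D θ, (inertial M D θ).ncard <
    orderOf (w⁻¹ * (t * w * t⁻¹)) * Nat.card (Subgroup.centralizer (D : Set G))

/-- `|I|` is smaller than the order of some element of `D`. -/
def SmallExp (M : Ideal (integralClosure ℤ ℂ)) (D : Subgroup G) (θ : G → ℂ) : Prop :=
  ∃ z ∈ D, (inertial M D θ).ncard < orderOf z * Nat.card (Subgroup.centralizer (D : Set G))

/-- `D` is a defect group of `B`, `D` is abelian, `b` is the block of the character `θ` of `C_G(D)`, `b^G = B`, and (1) `I` is abelian,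
acts semi-freely on `D`, and `|I|` is smaller than the order of some commutator `w⁻¹ (t w t⁻¹)`, or (2) `I` acts freely on `D \ {1}`,
and `|I|` is smaller than the exponent of `D`. -/
structure SemiFreeInertial (p : ℕ) (M : Ideal (integralClosure ℤ ℂ)) (χ : G → ℂ) (D : Subgroup G)
    (θ : G → ℂ) : Prop where
  defect : Pool.Agent.MAP.DefectGroup p M χ D
  comm : ∀ c ∈ D, ∀ d ∈ D, c * d = d * c
  char : θ ∈ IrrOn (Subgroup.centralizer (D : Set G))
  ind : Induces M θ χ
  act : (AbelianI M D θ ∧ SemiFreeI M D θ ∧ SmallComm M D θ) ∨ (FreeI M D θ ∧ SmallExp M D θ)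

/-- `I` is abelian, or `|I| < p ^ 2`. -/
def AbelianOrSmall (p : ℕ) (M : Ideal (integralClosure ℤ ℂ)) (D : Subgroup G) (θ : G → ℂ) : Prop :=
  AbelianI M D θ ∨ (inertial M D θ).ncard < p ^ 2 * Nat.card (Subgroup.centralizer (D : Set G))

/-- The pairs of elements of `N_G(D, b)` which commute modulo `C_G(D)`. Their number is `|I| k(I) |C_G(D)| ^ 2`, `k(I)` the number of
the conjugacy classes of `I`. -/
def commuting (M : Ideal (integralClosure ℤ ℂ)) (D : Subgroup G) (θ : G → ℂ) : Set (G × G) :=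
  {x | x.1 ∈ inertial M D θ ∧ x.2 ∈ inertial M D θ ∧
    x.1 * x.2 * x.1⁻¹ * x.2⁻¹ ∈ Subgroup.centralizer (D : Set G)}

/-- `i = |I|`, `k = k(I)`, `y = |C_D(I)|`, `|D| = p ^ a`. -/
structure Numbers (p : ℕ) (M : Ideal (integralClosure ℤ ℂ)) (D : Subgroup G) (θ : G → ℂ) (i k y a : ℕ) : Prop where
  order : (inertial M D θ).ncard = i * Nat.card (Subgroup.centralizer (D : Set G))
  classes : (commuting M D θ).ncard = i * k * Nat.card (Subgroup.centralizer (D : Set G)) ^ 2
  fix : (fixed M D θ).ncard = y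
  defect : Nat.card D = p ^ a

end Pool.Agent.FIW
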