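import Mathlib
import Pool.Agent.helper7.FI23.DefsJ
import Pool.Agent.helper7.FI23.All3
import Pool.Agent.helper7.FI2.All2

/-!
# Project fi2 + fi3 (MP_baa4d7_al): the joined theorem
-/

set_option autoImplicit false

namespace Pool.Agent.FI23

open Pool.Agent.helper58.DC Pool.Agent.DI Pool.Agent.GR Pool.Agent.OB Pool.Agent.DR Pool.Agent.FI

/-- extensions with `E_B = E[B]` -/
theorem FJ_extEq (p : ℕ) (hpr : p.Prime) (M : Ideal (integralClosure ℤ ℂ)) (hM : M.IsMaximal)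
    (hp : (p : integralClosure ℤ ℂ) ∈ M) (G : Type) [Group G] [Finite G] (χ : G → ℂ) (hχ : χ ∈ Irr G)
    (E A : Type) [Group E] [Group A] [Finite E]
    (X : Extension G E A) (hX : Pool.Agent.BQ.AB X M χ ≤ Pool.Agent.BQ.AI X M χ) (U : Subgroup A) :
    (∀ d : ℤ, altSum X p M χ d U = altSum (trivE G) p M χ d ⊤) ∨ ∀ d : ℤ, altSum X p M χ d U = 0 := by
  have : Fact p.Prime := ⟨hpr⟩
  by_cases hU : Pool.Agent.BQ.AI X M χ ≤ U ∧ U ≤ Pool.Agent.BQ.AB X M χ
  · left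
    intro d
    have hZ := Pool.Agent.BQ.All.qZRO G E A X p M hM hp χ hχ d
    unfold altSum
    refine finsum_congr fun c => ?_
    congr 2
    rw [Pool.Agent.FI.kC_trivE]
    unfold kC
    refine Nat.card_congr (Equiv.subtypeEquivRight fun ψ => ?_)
    constructor
    · rintro ⟨h1, h2, h3, -⟩
      exact ⟨h1, h2, h3⟩
    · rintro ⟨h1, h2, h3⟩
      refine ⟨h1, h2, h3, ?_⟩
      set V := (X.stab c.out.1 ψ).map X.proj with hV
      have hVV : Pool.Agent.BQ.AI X M χ ≤ V ∧ V ≤ Pool.Agent.BQ.AB X M χ := by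
        by_contra hn
        have h4 := (hZ V hn).1 c.out.1 c.out.2
        unfold kC at h4
        have hfin : Finite {ψ : G → ℂ // ψ ∈ IrrOn (nrm c.out.1) ∧ Defect p (nrm c.out.1) ψ d ∧ Induces M ψ χ ∧
            (X.stab c.out.1 ψ).map X.proj = V} := by
          have h5 : (IrrOn (nrm c.out.1)).Finite := (Pool.Agent.DR.AllDI.iB2 G (nrm c.out.1)).1
          have : Finite (IrrOn (nrm c.out.1)) := h5
          exact Finite.of_injective (fun x => (⟨x.1, x.2.1⟩ : IrrOn (nrm c.out.1)))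
            (fun a b hab => Subtype.ext (congrArg (fun t => t.1) hab))
        have h6 : Nonempty {ψ : G → ℂ // ψ ∈ IrrOn (nrm c.out.1) ∧ Defect p (nrm c.out.1) ψ d ∧ Induces M ψ χ ∧
            (X.stab c.out.1 ψ).map X.proj = V} := ⟨⟨ψ, h1, h2, h3, hV.symm⟩⟩
        have h7 := Nat.card_pos_iff.2 ⟨h6, hfin⟩
        omega
      exact le_antisymm (hVV.2.trans (hX.trans hU.1)) (hU.2.trans (hX.trans hVV.1))
  · right
    intro d
    exact (Pool.Agent.BQ.All.qZRO G E A X p M hM hp χ hχ d U hU).2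

/-- The standing facts. -/
theorem FJ_std {p : ℕ} (hpr : p.Prime) {M : Ideal (integralClosure ℤ ℂ)} (hM : M.IsMaximal)
    (hp : (p : integralClosure ℤ ℂ) ∈ M) {G : Type} [Group G] [Finite G]
    {χ : G → ℂ} (hχ : χ ∈ Irr G) {D : Subgroup G} {θ : G → ℂ}
    (h : Pool.Agent.FIW.SemiFreeInertial p M χ D θ) :
    ∃ x : G, Rt p M D x θ χ ∧ Pool.Agent.FIW.inertial M D θ = (TT M D θ : Set G) ∧ cz D ≤ TT M D θ ∧ D ≤ cz D ∧
      (Pool.Agent.FIW.inertial M D θ).ncard = (cz D).relIndex (TT M D θ) * Nat.card (cz D) ∧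
      1 ≤ (cz D).relIndex (TT M D θ) := by
  classical
  have hS : Setup p M := ⟨hpr, hM, hp⟩
  have : Fact p.Prime := ⟨hpr⟩
  obtain ⟨x, hx⟩ := Fin_defAt hS hχ h.defect
  have hR : Rt p M D x θ χ := ⟨hχ, hx, h.comm, h.char, h.ind⟩
  have hin : Pool.Agent.FIW.inertial M D θ = (TT M D θ : Set G) := by
    ext g
    exact Tr_inertial M D θ g
  have hDcz : D ≤ cz D := by
    intro a ha
    rw [Subgroup.mem_centralizer_iff]
    intro b hb
    exact h.comm b hb a ha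
  have hCT : cz D ≤ TT M D θ := cz_le_TT
  have hcard : Nat.card (TT M D θ) = (cz D).relIndex (TT M D θ) * Nat.card (cz D) := by
    have h2 := Subgroup.relIndex_mul_relIndex (⊥ : Subgroup G) (cz D) (TT M D θ) bot_le hCT
    rw [Subgroup.relIndex_bot_left, Subgroup.relIndex_bot_left] at h2
    rw [mul_comm]
    exact h2.symm
  refine ⟨x, hR, hin, hCT, hDcz, ?_, ?_⟩
  · rw [hin, ← hcard]
    rfl
  · by_contra h0
    have h1 : (cz D).relIndex (TT M D θ) = 0 := by omega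
    rw [h1, zero_mul] at hcard
    exact Nat.card_pos.ne' hcard

/-- all characters have the same defect -/
theorem FJ_tot {p : ℕ} {M : Ideal (integralClosure ℤ ℂ)} {G : Type} [Group G] [Finite G] {χ : G → ℂ} {i a N : ℕ}
    (hi : 1 ≤ i)
    (h : ∀ d : ℤ, i * Nat.card {ψ : G → ℂ // ψ ∈ Irr G ∧ Defect p ⊤ ψ d ∧ Induces M ψ χ} = if d = a then N else 0) :
    (∀ ψ ∈ Irr G, Induces M ψ χ → Defect p (⊤ : Subgroup G) ψ a) ∧
      i * Nat.card {ψ : G → ℂ // ψ ∈ Irr G ∧ Induces M ψ χ} = N := by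
  classical
  have hfin : ∀ d : ℤ, Finite {ψ : G → ℂ // ψ ∈ Irr G ∧ Defect p (⊤ : Subgroup G) ψ d ∧ Induces M ψ χ} := fun d => by
    have h5 : (IrrOn (⊤ : Subgroup G)).Finite := (Pool.Agent.DR.AllDI.iB2 G (⊤ : Subgroup G)).1
    have : Finite (IrrOn (⊤ : Subgroup G)) := h5
    exact Finite.of_injective (fun x => (⟨x.1, (Pool.Agent.GR.All.dTI G x.1).2 x.2.1⟩ : IrrOn (⊤ : Subgroup G)))
      (fun a b hab => Subtype.ext (congrArg (fun t => t.1) hab))
  have h1 : ∀ ψ ∈ Irr G, Induces M ψ χ → Defect p (⊤ : Subgroup G) ψ a := by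
    intro ψ hψ hI
    obtain ⟨n, -, hn, -⟩ := ((Pool.Agent.DR.AllDI.iB2 G (⊤ : Subgroup G)).2 ψ ((Pool.Agent.GR.All.dTI G ψ).2 hψ)).1
    have hd : Defect p (⊤ : Subgroup G) ψ
      ((padicValNat p (Nat.card (⊤ : Subgroup G)) : ℤ) - padicValNat p n) := ⟨n, hn, rfl⟩
    by_cases hda : ((padicValNat p (Nat.card (⊤ : Subgroup G)) : ℤ) - padicValNat p n) = a
    · rwa [hda] at hd
    · exfalso
      have h2 := h ((padicValNat p (Nat.card (⊤ : Subgroup G)) : ℤ) - padicValNat p n)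
      rw [if_neg hda] at h2
      have h3 : 0 < Nat.card {ψ : G → ℂ // ψ ∈ Irr G ∧ Defect p (⊤ : Subgroup G) ψ
          ((padicValNat p (Nat.card (⊤ : Subgroup G)) : ℤ) - padicValNat p n) ∧ Induces M ψ χ} := by
        have := hfin ((padicValNat p (Nat.card (⊤ : Subgroup G)) : ℤ) - padicValNat p n)
        exact Nat.card_pos_iff.2 ⟨⟨⟨ψ, hψ, hd, hI⟩⟩, this⟩
      rcases Nat.mul_eq_zero.1 h2 with h4 | h4 <;> omega
  refine ⟨h1, ?_⟩
  have h2 := h a
  rw [if_pos rfl] at h2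
  rw [← h2]
  congr 1
  refine Nat.card_congr (Equiv.subtypeEquivRight fun ψ => ?_)
  constructor
  · rintro ⟨h3, h4⟩
    exact ⟨h3, h1 ψ h3 h4, h4⟩
  · rintro ⟨h3, -, h4⟩
    exact ⟨h3, h4⟩

section

set_option linter.unusedSectionVars false

variable {p : ℕ} {M : Ideal (integralClosure ℤ ℂ)} {G : Type} [Group G] [Finite G] {D : Subgroup G} {θ : G → ℂ}

theorem FJ_comm_abel (h : Pool.Agent.FIW.AbelianI M D θ) :
    (Pool.Agent.FIW.commuting M D θ).ncard = (Pool.Agent.FIW.inertial M D θ).ncard ^ 2 := by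
  have h1 : Pool.Agent.FIW.commuting M D θ = Pool.Agent.FIW.inertial M D θ ×ˢ Pool.Agent.FIW.inertial M D θ := by
    ext x
    constructor
    · rintro ⟨h2, h3, -⟩
      exact ⟨h2, h3⟩
    · rintro ⟨h2, h3⟩
      exact ⟨h2, h3, h _ h2 _ h3⟩
  rw [h1, Set.ncard_prod, sq]

/-- numbers in the abelian case -/
theorem FJ_num_abel (h : Pool.Agent.FIW.AbelianI M D θ) {i k y a : ℕ} (hn : Pool.Agent.FIW.Numbers p M D θ i k y a)
    (hi : 1 ≤ i) : k = i := by
  have h1 := hn.classes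
  rw [FJ_comm_abel h, hn.order, mul_pow] at h1
  have hc : 0 < Nat.card (Subgroup.centralizer (D : Set G)) ^ 2 := pow_pos Nat.card_pos 2
  have h2 := Nat.eq_of_mul_eq_mul_right hc h1
  rw [sq] at h2
  exact (Nat.eq_of_mul_eq_mul_left (by omega) h2).symm

/-- the fixed points, free action -/
theorem FJ_fixed_one (hf : Pool.Agent.FIW.FreeI M D θ)
    (ht : ∃ t ∈ Pool.Agent.FIW.inertial M D θ, t ∉ Subgroup.centralizer (D : Set G)) :
    (Pool.Agent.FIW.fixed M D θ).ncard = 1 := by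
  obtain ⟨t, ht, htc⟩ := ht
  have h1 : Pool.Agent.FIW.fixed M D θ = {1} := by
    ext u
    constructor
    · rintro ⟨hu, hc⟩
      by_contra hne
      exact htc (hf t ht u hu hne (hc t ht))
    · intro hu
      have hu' : u = 1 := hu
      rw [hu']
      exact ⟨D.one_mem, fun s _ => by rw [mul_one, one_mul]⟩
  rw [h1, Set.ncard_singleton]

theorem FJ_fixed_all (ht : ∀ t ∈ Pool.Agent.FIW.inertial M D θ, t ∈ Subgroup.centralizer (D : Set G)) :
    (Pool.Agent.FIW.fixed M D θ).ncard = Nat.card D := by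
  have h1 : Pool.Agent.FIW.fixed M D θ = (D : Set G) := by
    ext u
    constructor
    · rintro ⟨hu, -⟩
      exact hu
    · intro hu
      refine ⟨hu, fun t h2 => ?_⟩
      exact (Subgroup.mem_centralizer_iff.1 (ht t h2) u hu).symm
  rw [h1]
  rfl

end

/-- the semi-free abelian case -/
theorem FJ_A {p : ℕ} (hpr : p.Prime) (hodd : p ≠ 2) {M : Ideal (integralClosure ℤ ℂ)} (hM : M.IsMaximal)
    (hp : (p : integralClosure ℤ ℂ) ∈ M) {G : Type} [Group G] [Finite G]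
    {χ : G → ℂ} (hχ : χ ∈ Irr G) {D : Subgroup G} {θ : G → ℂ}
    (h : Pool.Agent.FIW.SemiFreeInertial p M χ D θ)
    (hA : Pool.Agent.FIW.AbelianI M D θ ∧ Pool.Agent.FIW.SemiFreeI M D θ ∧ Pool.Agent.FIW.SmallComm M D θ) :
    Pool.Agent.FIW.SemiFree p M χ D θ :=
  ⟨h.defect, h.comm, h.char, h.ind, hA.1, hA.2.1, hA.2.2⟩

theorem FJ_B {p : ℕ} {M : Ideal (integralClosure ℤ ℂ)} {G : Type} [Group G]
    {χ : G → ℂ} {D : Subgroup G} {θ : G → ℂ}
    (h : Pool.Agent.FIW.SemiFreeInertial p M χ D θ)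
    (hA : Pool.Agent.FIW.AbelianI M D θ) (hB : Pool.Agent.FIW.FreeI M D θ ∧ Pool.Agent.FIW.SmallExp M D θ) :
    Pool.Agent.FIW.FreeInertial p M χ D θ :=
  ⟨h.defect, h.comm, h.char, h.ind, hA, hB.1, hB.2⟩

/-- The numbers. -/
theorem FJ_cnt (p : ℕ) (hpr : p.Prime) (hodd : p ≠ 2) (M : Ideal (integralClosure ℤ ℂ)) (hM : M.IsMaximal)
    (hp : (p : integralClosure ℤ ℂ) ∈ M) (G : Type) [Group G] [Finite G]
    (χ : G → ℂ) (hχ : χ ∈ Irr G) (D : Subgroup G) (θ : G → ℂ)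
    (h : Pool.Agent.FIW.SemiFreeInertial p M χ D θ)
    (hG : IsOp p (⊤ : Subgroup G) ⊥ ∨ (Pool.Agent.FIW.AbelianI M D θ ∧ Pool.Agent.FIW.SemiFreeI M D θ ∧
      Pool.Agent.FIW.SmallComm M D θ)) (i k y a : ℕ) (hn : Pool.Agent.FIW.Numbers p M D θ i k y a) :
    i * Nat.card {ψ : G → ℂ // ψ ∈ Irr G ∧ Induces M ψ χ} = i * (k * y) + (p ^ a - y) ∧
    (Pool.Agent.FIW.AbelianOrSmall p M D θ → ∀ ψ ∈ Irr G, Induces M ψ χ → Defect p (⊤ : Subgroup G) ψ a) := by
  classical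
  obtain ⟨x, hR, hin, hCT, hDC, hinc, hi1⟩ := FJ_std hpr hM hp hχ h
  have hii : i = (cz D).relIndex (TT M D θ) := by
    have h1 := hn.order
    rw [hinc] at h1
    exact (Nat.eq_of_mul_eq_mul_right Nat.card_pos h1).symm
  have hi : 1 ≤ i := hii ▸ hi1
  have ha1 : 1 ≤ p ^ a := Nat.one_le_pow _ _ hpr.pos
  -- the semi-free case
  have caseA : (Pool.Agent.FIW.AbelianI M D θ ∧ Pool.Agent.FIW.SemiFreeI M D θ ∧
      Pool.Agent.FIW.SmallComm M D θ) →
      i * Nat.card {ψ : G → ℂ // ψ ∈ Irr G ∧ Induces M ψ χ} = i * (k * y) + (p ^ a - y) ∧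
      ∀ ψ ∈ Irr G, Induces M ψ χ → Defect p (⊤ : Subgroup G) ψ a := by
    intro hA
    have hk := FJ_num_abel hA.1 hn hi
    have h1 := fun d => FI3.All3.fi3_cnt p hpr hodd M hM hp G χ hχ D θ (FJ_A hpr hodd hM hp hχ h hA) i a hn.order
      hn.defect d
    obtain ⟨h2, h3⟩ := FJ_tot hi h1
    refine ⟨?_, h2⟩
    rw [h3, hn.fix, hk]
    ring
  rcases h.act with hA | hB
  · exact ⟨(caseA hA).1, fun _ => (caseA hA).2⟩
  by_cases hab : Pool.Agent.FIW.AbelianI M D θ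
  · -- free and abelian
    rcases hG with hG | hA
    · have hk := FJ_num_abel hab hn hi
      have h1 := fun d => FI.AllQ.fi_cnt p hpr hodd M hM hp G hG χ hχ D θ (FJ_B h hab hB) i a hn.order hn.defect d
      obtain ⟨h2, h3⟩ := FJ_tot hi h1
      refine ⟨?_, fun _ => h2⟩
      rw [h3, hk]
      by_cases ht : ∃ t ∈ Pool.Agent.FIW.inertial M D θ, t ∉ Subgroup.centralizer (D : Set G)
      · have hy : y = 1 := by rw [← hn.fix, FJ_fixed_one hB.1 ht]
        rw [hy, mul_one, sq]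
      · have ht' : ∀ t ∈ Pool.Agent.FIW.inertial M D θ, t ∈ Subgroup.centralizer (D : Set G) := fun t h4 => by
          by_contra h5
          exact ht ⟨t, h4, h5⟩
        have hy : y = p ^ a := by rw [← hn.fix, FJ_fixed_all ht', hn.defect]
        have hTC : TT M D θ ≤ cz D := fun t h4 => ht' t (by rw [hin]; exact h4)
        have hi' : i = 1 := by
          rw [hii]
          exact Subgroup.relIndex_eq_one.2 hTC
        rw [hy, hi', Nat.sub_self]
        omega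
    · exact ⟨(caseA hA).1, fun _ => (caseA hA).2⟩
  · rcases hG with hG | hA
    · -- free and not abelian
      have hFr : FI.Free M D θ := fun t ht u hu hu1 htu => hB.1 t ((Tr_inertial M D θ t).2 ht) u hu hu1 htu
      have hna : ∃ s ∈ TT M D θ, ∃ t ∈ TT M D θ, s * t * s⁻¹ * t⁻¹ ∉ cz D := by
        by_contra hno
        refine hab fun s hs t ht => ?_
        by_contra hst
        exact hno ⟨s, (Tr_inertial M D θ s).1 hs, t, (Tr_inertial M D θ t).1 ht, hst⟩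
      have hsm : ∃ z ∈ D, (cz D).relIndex (TT M D θ) < orderOf z := by
        obtain ⟨z, hz, hlt⟩ := hB.2
        rw [hinc] at hlt
        exact ⟨z, hz, lt_of_mul_lt_mul_right hlt (Nat.zero_le _)⟩
      obtain ⟨k', hk1, hk2, hnP, hcnt, hsum, hsq⟩ := FI2.All2.fi2_core p hpr hodd M hM hp G hG D x θ χ h.defect hR
        hFr hna hsm
      have hkk : k = k' := by
        have h1 : (Pool.Agent.FIW.commuting M D θ).ncard = FI2.nP (cz D) (TT M D θ) := by
          unfold Pool.Agent.FIW.commuting FI2.nP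
          rw [hin]
          rfl
        have h2 := hn.classes
        rw [h1, hnP, hii] at h2
        have h3 : (cz D).relIndex (TT M D θ) * k' * Nat.card (cz D) ^ 2 =
            (cz D).relIndex (TT M D θ) * k * Nat.card (cz D) ^ 2 := by
          rw [← h2]
          ring
        have h4 := Nat.eq_of_mul_eq_mul_right (pow_pos Nat.card_pos 2) h3
        exact (Nat.eq_of_mul_eq_mul_left hi1 h4).symm
      have hy : y = 1 := by
        rw [← hn.fix]
        obtain ⟨s, hs, t, ht, hst⟩ := hna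
        refine FJ_fixed_one hB.1 ?_
        by_contra hno
        have hall : ∀ t ∈ Pool.Agent.FIW.inertial M D θ, t ∈ Subgroup.centralizer (D : Set G) := fun t h4 => by
          by_contra h5
          exact hno ⟨t, h4, h5⟩
        have hs' := hall s ((Tr_inertial M D θ s).2 hs)
        have ht' := hall t ((Tr_inertial M D θ t).2 ht)
        exact hst (Subgroup.mul_mem _ (Subgroup.mul_mem _ (Subgroup.mul_mem _ hs' ht') (Subgroup.inv_mem _ hs'))
          (Subgroup.inv_mem _ ht'))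
      have hblk : Nat.card {ψ : G → ℂ // ψ ∈ Irr G ∧ Induces M ψ χ} = (Blk M χ (⊤ : Subgroup G)).ncard := by
        have h1 : (Blk M χ (⊤ : Subgroup G)).ncard = Nat.card {ψ : G → ℂ // ψ ∈ Blk M χ (⊤ : Subgroup G)} := rfl
        rw [h1]
        refine Nat.card_congr (Equiv.subtypeEquivRight fun ψ => ?_)
        have h2 := Pool.Agent.GR.All.dTI G ψ
        constructor
        · rintro ⟨h3, h5⟩
          exact ⟨h2.2 h3, h5⟩
        · rintro ⟨h3, h5⟩
          exact ⟨h2.1 h3, h5⟩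
      refine ⟨?_, fun hs => ?_⟩
      · rw [hblk, hii, hcnt, hy, mul_one, hkk, hn.defect]
      · rcases hs with hs | hs
        · exact absurd hs hab
        · rw [hinc] at hs
          have hlt := lt_of_mul_lt_mul_right hs (Nat.zero_le _)
          intro ψ hψ hI
          exact (hsq hlt a hn.defect).2 ψ ⟨(Pool.Agent.GR.All.dTI G ψ).2 hψ, hI⟩
    · exact ⟨(caseA hA).1, fun _ => (caseA hA).2⟩

/-- Dade's conjecture for `E = G`. -/
theorem FJ_main (p : ℕ) (hpr : p.Prime) (hodd : p ≠ 2) (M : Ideal (integralClosure ℤ ℂ)) (hM : M.IsMaximal)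
    (hp : (p : integralClosure ℤ ℂ) ∈ M) (G : Type) [Group G] [Finite G]
    (hG : IsOp p (⊤ : Subgroup G) ⊥) (χ : G → ℂ) (hχ : χ ∈ Irr G) (D : Subgroup G) (θ : G → ℂ)
    (h : Pool.Agent.FIW.SemiFreeInertial p M χ D θ) :
    ∑ᶠ d : ℤ, altSum (trivE G) p M χ d ⊤ = 0 ∧
    (Pool.Agent.FIW.AbelianOrSmall p M D θ → ∀ d : ℤ, altSum (trivE G) p M χ d ⊤ = 0) := by
  classical
  have key : (∀ d : ℤ, altSum (trivE G) p M χ d ⊤ = 0) → ∑ᶠ d : ℤ, altSum (trivE G) p M χ d ⊤ = 0 ∧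
    (Pool.Agent.FIW.AbelianOrSmall p M D θ → ∀ d : ℤ, altSum (trivE G) p M χ d ⊤ = 0) := fun h0 =>
    ⟨by rw [finsum_congr h0, finsum_zero], fun _ => h0⟩
  obtain ⟨x, hR, hin, hCT, hDC, hinc, hi1⟩ := FJ_std hpr hM hp hχ h
  rcases h.act with hA | hB
  · exact key fun d => FI3.All3.fi3_main p hpr hodd M hM hp G hG χ hχ D θ (FJ_A hpr hodd hM hp hχ h hA) d
  by_cases hab : Pool.Agent.FIW.AbelianI M D θ
  · exact key fun d => FI.AllQ.fi_main p hpr hodd M hM hp G hG χ hχ D θ (FJ_B h hab hB) d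
  have hFr : FI.Free M D θ := fun t ht u hu hu1 htu => hB.1 t ((Tr_inertial M D θ t).2 ht) u hu hu1 htu
  have hna : ∃ s ∈ TT M D θ, ∃ t ∈ TT M D θ, s * t * s⁻¹ * t⁻¹ ∉ cz D := by
    by_contra hno
    refine hab fun s hs t ht => ?_
    by_contra hst
    exact hno ⟨s, (Tr_inertial M D θ s).1 hs, t, (Tr_inertial M D θ t).1 ht, hst⟩
  have hsm : ∃ z ∈ D, (cz D).relIndex (TT M D θ) < orderOf z := by
    obtain ⟨z, hz, hlt⟩ := hB.2
    rw [hinc] at hlt
    exact ⟨z, hz, lt_of_mul_lt_mul_right hlt (Nat.zero_le _)⟩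
  obtain ⟨k', hk1, hk2, hnP, hcnt, hsum, hsq⟩ := FI2.All2.fi2_core p hpr hodd M hM hp G hG D x θ χ h.defect hR
    hFr hna hsm
  refine ⟨hsum, fun hs => ?_⟩
  rcases hs with hs | hs
  · exact absurd hs hab
  · rw [hinc] at hs
    have hlt := lt_of_mul_lt_mul_right hs (Nat.zero_le _)
    have : Fact p.Prime := ⟨hpr⟩
    obtain ⟨a, ha⟩ := IsPGroup.iff_card.1 hR.dfa.pgrp
    exact (hsq hlt a ha).1

/-- Dade's conjecture for the extensions with `E_B = E[B]`. -/
theorem FJ_ext (p : ℕ) (hpr : p.Prime) (hodd : p ≠ 2) (M : Ideal (integralClosure ℤ ℂ)) (hM : M.IsMaximal)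
    (hp : (p : integralClosure ℤ ℂ) ∈ M) (G : Type) [Group G] [Finite G]
    (hG : IsOp p (⊤ : Subgroup G) ⊥) (χ : G → ℂ) (hχ : χ ∈ Irr G) (D : Subgroup G) (θ : G → ℂ)
    (h : Pool.Agent.FIW.SemiFreeInertial p M χ D θ) (E A : Type) [Group E] [Group A] [Finite E]
    (X : Extension G E A) (hX : Pool.Agent.BQ.AB X M χ ≤ Pool.Agent.BQ.AI X M χ) (U : Subgroup A) :
    ∑ᶠ d : ℤ, altSum X p M χ d U = 0 ∧
    (Pool.Agent.FIW.AbelianOrSmall p M D θ → ∀ d : ℤ, altSum X p M χ d U = 0) := by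
  obtain ⟨h1, h2⟩ := FJ_main p hpr hodd M hM hp G hG χ hχ D θ h
  rcases FJ_extEq p hpr M hM hp G χ hχ E A X hX U with h3 | h3
  · refine ⟨?_, fun hs d => ?_⟩
    · rw [finsum_congr h3, h1]
    · rw [h3 d]
      exact h2 hs d
  · exact ⟨by rw [finsum_congr h3, finsum_zero], fun _ d => h3 d⟩

end Pool.Agent.FI23
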